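import Pool.Agent.Q199.SY.Stm

/-!
# Project SY, job MKV: the Markov property of the laws of types
-/

set_option autoImplicit false

open MeasureTheory ProbabilityTheory Set
open scoped ENNReal

namespace Pool.Agent.Q149.SY

open Pool.Agent.Q199.SY

variable {ν : (ℕ → ℝ) → ℝ}

theorem bd_ev (hν : IsMean ν) {f : List ℕ → ℝ} (hf : ∀ w, 0 ≤ f w ∧ f w ≤ 1) (t : Tm)
    {α : Type} (φ : α → List ℕ) : Bd (fun x => ev ν f t (φ x)) :=
  Bd.of01 (fun x => ev_mem hν hf t (φ x))

theorem good_closed : IsClosed {z : K | Good z} := by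
  have h1 : IsClosed {z : K | (z .one : ℝ) = 1} := isClosed_eq (by fun_prop) continuous_const
  have h2 : IsClosed {z : K | ∀ s t : Tm, (z (.mul s t) : ℝ) = (z s : ℝ) * (z t : ℝ)} := by
    have : {z : K | ∀ s t : Tm, (z (.mul s t) : ℝ) = (z s : ℝ) * (z t : ℝ)} =
        ⋂ s : Tm, ⋂ t : Tm, {z : K | (z (.mul s t) : ℝ) = (z s : ℝ) * (z t : ℝ)} := by
      ext z; simp
    rw [this]
    exact isClosed_iInter fun s => isClosed_iInter fun t => isClosed_eq (by fun_prop) (by fun_prop)
  exact h1.inter h2

theorem good_ae (hzer : S_zer) (hν : IsMean ν) {f : List ℕ → ℝ} {m : ℕ → Measure K}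
    (hf : ∀ w, 0 ≤ f w ∧ f w ≤ 1) (hm : Laws ν f m) (k : ℕ) : ∀ᵐ z ∂(m k), Good z := by
  have h1 : ∀ᵐ z ∂(m k), |(z .one : ℝ) - 1| = 0 := by
    refine hzer ν hν f m hm k (fun z => |(z .one : ℝ) - 1|) (by fun_prop) (fun z => abs_nonneg _) ?_
    intro w _
    simp only [ty_val hν hf, ev]
    norm_num
  have h2 : ∀ᵐ z ∂(m k), ∀ s t : Tm, |(z (.mul s t) : ℝ) - (z s : ℝ) * (z t : ℝ)| = 0 := by
    rw [ae_all_iff]
    intro s
    rw [ae_all_iff]
    intro t
    refine hzer ν hν f m hm k (fun z => |(z (.mul s t) : ℝ) - (z s : ℝ) * (z t : ℝ)|) (by fun_prop)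
      (fun z => abs_nonneg _) ?_
    intro w _
    simp only [ty_val hν hf, ev]
    norm_num
  filter_upwards [h1, h2] with z hz1 hz2
  refine ⟨?_, fun s t => ?_⟩
  · have := abs_eq_zero.1 hz1
    linarith
  · have := abs_eq_zero.1 (hz2 s t)
    linarith

theorem abs_coord (z : K) (t : Tm) : ‖(z t : ℝ)‖ ≤ 1 := by
  rw [Real.norm_eq_abs, abs_of_nonneg (z t).2.1]
  exact (z t).2.2

theorem int_coord {μ : Measure K} [IsFiniteMeasure μ] (t : Tm) :
    Integrable (fun z : K => (z t : ℝ)) μ :=
  Integrable.of_bound (Continuous.aestronglyMeasurable (by fun_prop)) 1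
    (Filter.Eventually.of_forall (fun z => abs_coord z t))

theorem int_pair {μ : Measure (K × K)} [IsFiniteMeasure μ] (s t : Tm) :
    Integrable (fun p : K × K => (p.1 s : ℝ) * (p.2 t : ℝ)) μ :=
  Integrable.of_bound (Continuous.aestronglyMeasurable (by fun_prop)) 1
    (Filter.Eventually.of_forall (fun p => by
      rw [norm_mul]
      calc ‖(p.1 s : ℝ)‖ * ‖(p.2 t : ℝ)‖ ≤ 1 * 1 :=
            mul_le_mul (abs_coord _ _) (abs_coord _ _) (norm_nonneg _) zero_le_one
        _ = 1 := one_mul 1))

/-- Job MKV. -/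
theorem t_mkv (hzer : S_zer) (hmap : S_map) (hmom : S_mom) (hcav : S_cav) : S_mkv := by
  intro ν hν f m hf hm k D hD
  have hp : ∀ k, IsProbabilityMeasure (m k) := hm.prob
  obtain ⟨hpre, hsuf, -⟩ := hmap ν hν f m hm
  have mpre : Measurable preK := continuous_preK.measurable
  have msuf : Measurable sufK := continuous_sufK.measurable
  have : Nonempty K := ⟨fun _ => 0⟩
  set τ : Kernel K K := condDistrib id preK (m (k + 1)) with hτ
  have hτm : (m k) ⊗ₘ τ = (m (k + 1)).map (fun a => (preK a, a)) := by
    have : ((m (k + 1)).map preK) ⊗ₘ condDistrib (id : K → K) preK (m (k + 1)) =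
        (m (k + 1)).map (fun a => (preK a, id a)) := compProd_map_condDistrib aemeasurable_id
    rw [hpre] at this
    exact this
  refine ⟨fun o => τ o D, τ.measurable_coe hD, ?_, ?_⟩
  · -- first identity
    intro C hC
    rw [← Measure.compProd_apply_prod hC hD, hτm,
      Measure.map_apply (mpre.prodMk measurable_id') (hC.prod hD)]
    rfl
  · -- second identity
    have hcav' : ∀ t : Tm, ∀ᵐ o ∂(m k), ∫ y, (y t : ℝ) ∂(τ o) = (o (.avg t) : ℝ) := by
      intro t
      have hI : Integrable (fun p : K × K => (p.2 t : ℝ)) ((m k) ⊗ₘ τ) :=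
        Integrable.of_bound (Continuous.aestronglyMeasurable (by fun_prop)) 1
          (Filter.Eventually.of_forall (fun p => abs_coord _ _))
      have hI2 : Integrable (fun o => ∫ y, (y t : ℝ) ∂(τ o)) (m k) := by
        have h0 : StronglyMeasurable (fun y : K => (y t : ℝ)) :=
          Continuous.stronglyMeasurable (by fun_prop)
        refine Integrable.of_bound (h0.integral_kernel (κ := τ)).aestronglyMeasurable 1
          (Filter.Eventually.of_forall (fun o => ?_))
        have := norm_integral_le_of_norm_le_const (μ := τ o) (f := fun y : K => (y t : ℝ))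
          (C := 1) (Filter.Eventually.of_forall (fun y => abs_coord y t))
        simpa using this
      refine Integrable.ae_eq_of_forall_setIntegral_eq _ _ hI2 (int_coord _) ?_
      intro C hC _
      rw [← hcav ν hν f m hf hm k t C hC]
      have h1 := Measure.setIntegral_compProd (μ := m k) (κ := τ) hC MeasurableSet.univ
        (f := fun p : K × K => (p.2 t : ℝ)) hI.integrableOn
      simp only [Measure.restrict_univ] at h1
      rw [← h1, hτm, setIntegral_map (hC.prod MeasurableSet.univ)
        (Continuous.aestronglyMeasurable (by fun_prop)) (mpre.prodMk measurable_id').aemeasurable]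
      congr 1
      have : (fun a : K => (preK a, a)) ⁻¹' C ×ˢ univ = preK ⁻¹' C := by
        ext z; simp
      rw [this]
    set P : Measure (K × K) := (m (k + 2)).map (fun z => (preK z, sufK z)) with hP
    set Q : Measure (K × K) := (m (k + 1)) ⊗ₘ (τ.comap sufK msuf) with hQ
    have hPp : IsProbabilityMeasure P :=
      Measure.isProbabilityMeasure_map (mpre.prodMk msuf).aemeasurable
    have hQp : IsProbabilityMeasure Q := by rw [hQ]; infer_instance
    have hgm : MeasurableSet {p : K × K | Good p.1 ∧ Good p.2} :=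
      (measurable_fst good_closed.measurableSet).inter (measurable_snd good_closed.measurableSet)
    have hPg : ∀ᵐ p ∂P, Good p.1 ∧ Good p.2 := by
      rw [hP, ae_map_iff (mpre.prodMk msuf).aemeasurable hgm]
      have h1 : ∀ᵐ z ∂(m (k + 2)), Good (preK z) := by
        have := good_ae hzer hν hf hm (k + 1)
        rw [← hpre (k + 1)] at this
        exact ae_of_ae_map mpre.aemeasurable this
      have h2 : ∀ᵐ z ∂(m (k + 2)), Good (sufK z) := by
        have := good_ae hzer hν hf hm (k + 1)
        rw [← hsuf (k + 1)] at this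
        exact ae_of_ae_map msuf.aemeasurable this
      filter_upwards [h1, h2] with z hz1 hz2
      exact ⟨hz1, hz2⟩
    have hQg : ∀ᵐ p ∂Q, Good p.1 ∧ Good p.2 := by
      rw [hQ, Measure.ae_compProd_iff hgm]
      have h1 : ∀ᵐ o ∂(m k), ∀ᵐ b ∂(τ o), Good b := by
        have h2 : ∀ᵐ p ∂((m k) ⊗ₘ τ), Good p.2 := by
          have hms : MeasurableSet {p : K × K | Good p.2} :=
            measurable_snd good_closed.measurableSet
          rw [hτm, ae_map_iff (mpre.prodMk measurable_id').aemeasurable hms]
          exact good_ae hzer hν hf hm (k + 1)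
        exact Measure.ae_ae_of_ae_compProd h2
      rw [← hsuf k] at h1
      have h2 := ae_of_ae_map msuf.aemeasurable h1
      filter_upwards [h2, good_ae hzer hν hf hm (k + 1)] with a ha1 ha2
      rw [Kernel.comap_apply]
      filter_upwards [ha1] with b hb
      exact ⟨ha2, hb⟩
    have hmoments : ∀ s t : Tm, ∫ p, (p.1 s : ℝ) * (p.2 t : ℝ) ∂P =
        ∫ p, (p.1 s : ℝ) * (p.2 t : ℝ) ∂Q := by
      intro s t
      -- the left side
      have hL : ∫ p, (p.1 s : ℝ) * (p.2 t : ℝ) ∂P =
          it ν (k + 1) (fun u => ev ν f s u * ev ν f (.avg t) u.tail) := by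
        rw [hP, integral_map (mpre.prodMk msuf).aemeasurable
          (Continuous.aestronglyMeasurable (by fun_prop))]
        have h1 := hm.int (k + 2) ⟨fun z : K => ((preK z) s : ℝ) * ((sufK z) t : ℝ), by
          have := continuous_preK
          have := continuous_sufK
          fun_prop⟩
        simp only [ContinuousMap.coe_mk] at h1
        rw [h1, it_last]
        apply it_congr
        intro u hu
        have h2 : (fun x => ((preK (ty ν f (u ++ [x]))) s : ℝ) * ((sufK (ty ν f (u ++ [x]))) t : ℝ)) =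
            fun x => ev ν f s u * ev ν f t (u.tail ++ [x]) := by
          funext x
          rw [preK_ty, sufK_ty, ty_val hν hf, ty_val hν hf, List.dropLast_concat]
          rcases u with _ | ⟨a, u⟩
          · simp at hu
          · rfl
        rw [h2, hν.smul _ _ (bd_ev hν hf t _)]
        rfl
      have hR : ∫ p, (p.1 s : ℝ) * (p.2 t : ℝ) ∂Q =
          it ν (k + 1) (fun u => ev ν f s u * ev ν f (.avg t) u.tail) := by
        rw [hQ, Measure.integral_compProd (int_pair s t)]
        have h1 : ∫ a, ∫ b, (a s : ℝ) * (b t : ℝ) ∂(τ.comap sufK msuf a) ∂(m (k + 1)) =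
            ∫ a, (a s : ℝ) * ((sufK a) (.avg t) : ℝ) ∂(m (k + 1)) := by
          apply integral_congr_ae
          have h2 : ∀ᵐ a ∂(m (k + 1)), ∫ y, (y t : ℝ) ∂(τ (sufK a)) = ((sufK a) (.avg t) : ℝ) := by
            have := hcav' t
            rw [← hsuf k] at this
            exact ae_of_ae_map msuf.aemeasurable this
          filter_upwards [h2] with a ha
          rw [Kernel.comap_apply, integral_const_mul, ha]
        change ∫ a, ∫ b, (a s : ℝ) * (b t : ℝ) ∂(τ.comap sufK msuf a) ∂(m (k + 1)) = _
        rw [h1]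
        have h3 := hm.int (k + 1) ⟨fun z : K => (z s : ℝ) * ((sufK z) (.avg t) : ℝ), by
          have := continuous_sufK
          fun_prop⟩
        simp only [ContinuousMap.coe_mk] at h3
        rw [h3]
        apply it_congr
        intro u _
        rw [sufK_ty, ty_val hν hf, ty_val hν hf]
      rw [hL, hR]
    have hPQ : P = Q := hmom P Q hPg hQg hmoments
    intro C hC
    have h1 : m (k + 2) (preK ⁻¹' C ∩ sufK ⁻¹' D) = P (C ×ˢ D) := by
      rw [hP, Measure.map_apply (mpre.prodMk msuf) (hC.prod hD)]
      rfl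
    rw [h1, hPQ, hQ, Measure.compProd_apply_prod hC hD]
    rfl

end Pool.Agent.Q149.SY
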