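import Pool.Agent.Q199.SY.Stm

/-!
# Project SY, job PAIR: the law of two neighbouring arcs
-/

set_option autoImplicit false

open MeasureTheory ProbabilityTheory Set
open scoped ENNReal

namespace Pool.Agent.Q149.SY

open Pool.Agent.Q199.SY

theorem Yr_mea {X : Type} [MeasurableSpace X] {Φ : ℕ → X × X → unitInterval → X}
    (hΦ : ∀ k, Measurable (Function.uncurry (Φ k))) (o : X) (ℓ : ℕ) :
    ∀ k i, Measurable (Yr Φ o ℓ k i)
  | 0, i => measurable_const
  | k + 1, i => by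
      have h1 := Yr_mea hΦ o ℓ k i
      have h2 := Yr_mea hΦ o ℓ k (i + 1)
      exact (hΦ k).comp ((h1.prodMk h2).prodMk (measurable_pi_apply (i % ℓ, k)))

theorem Yr_dep {X : Type} (Φ : ℕ → X × X → unitInterval → X) (o : X) (ℓ : ℕ) :
    ∀ (k i : ℕ) (ω ω' : Om), (∀ t b, t < k → ω ((i + t) % ℓ, b) = ω' ((i + t) % ℓ, b)) →
      Yr Φ o ℓ k i ω = Yr Φ o ℓ k i ω'
  | 0, _, _, _, _ => rfl
  | k + 1, i, ω, ω', h => by
      have h1 := Yr_dep Φ o ℓ k i ω ω' (fun t b ht => h t b (by omega))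
      have h2 := Yr_dep Φ o ℓ k (i + 1) ω ω' (fun t b ht => by
        have := h (t + 1) b (by omega)
        have e : i + 1 + t = i + (t + 1) := by ring
        rw [e]; exact this)
      have h3 : ω (i % ℓ, k) = ω' (i % ℓ, k) := by simpa using h 0 k (by omega)
      simp only [Yr, h1, h2, h3]

theorem Psi_mea {X : Type} [MeasurableSpace X] {Φ : ℕ → X × X → unitInterval → X}
    (hΦ : ∀ k, Measurable (Function.uncurry (Φ k))) (o : X) {pre : X → X} (hpre : Measurable pre) :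
    ∀ k, Measurable (fun p : X × (ℕ → unitInterval) => Psi Φ o pre k p.1 p.2)
  | 0 => measurable_const
  | k + 1 => by
      have h1 := Psi_mea hΦ o hpre k
      have h2 : Measurable (fun p : X × (ℕ → unitInterval) => Psi Φ o pre k (pre p.1) p.2) :=
        h1.comp ((hpre.comp measurable_fst).prodMk measurable_snd)
      exact (hΦ k).comp ((h2.prodMk measurable_fst).prodMk
        ((measurable_pi_apply k).comp measurable_snd))

/-- other places of the ring -/
theorem mod_ne {ℓ i s : ℕ} (h0 : 0 < s) (h : s < ℓ) : (i + s) % ℓ ≠ i % ℓ := by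
  intro he
  have h1 : i + s ≡ i + 0 [MOD ℓ] := by simpa [Nat.ModEq] using he
  have h2 := Nat.ModEq.add_left_cancel' i h1
  rw [Nat.ModEq, Nat.mod_eq_of_lt h, Nat.zero_mod] at h2
  omega

/-- Job PAIR. -/
theorem t_pair (hind : S_ind) (hpsi : S_psi) : S_pair := by
  intro X _ _ _ m pre suf o Φ h hD ℓ k hkl htri i
  have hp : ∀ k, IsProbabilityMeasure (m k) := h.prob
  have hYm := Yr_mea hD.meas o ℓ
  have hDm : Measurable (fun z => (pre z, suf z)) := h.mpre.prodMk h.msuf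
  have hlaw : ∀ j i, j ≤ k → PP.map (Yr Φ o ℓ (j + 1) i) = m (j + 1) := by
    intro j i hj
    have h1 := htri j hj i
    have h2 := congrArg (fun μ : Measure ((X × X) × X) => μ.map Prod.snd) h1
    rw [Measure.map_map measurable_snd
      (((hYm j i).prodMk (hYm j (i + 1))).prodMk (hYm (j + 1) i)),
      Measure.map_map measurable_snd (hDm.prodMk measurable_id')] at h2
    have e2 : (Prod.snd ∘ fun z : X => ((pre z, suf z), z)) = id := rfl
    rw [e2, Measure.map_id] at h2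
    exact h2
  have has : ∀ j i, j ≤ k → ∀ᵐ ω ∂PP, pre (Yr Φ o ℓ (j + 1) i ω) = Yr Φ o ℓ j i ω ∧
      suf (Yr Φ o ℓ (j + 1) i ω) = Yr Φ o ℓ j (i + 1) ω := by
    intro j i hj
    have h1 := htri j hj i
    have hms : MeasurableSet {p : (X × X) × X | pre p.2 = p.1.1 ∧ suf p.2 = p.1.2} :=
      (measurableSet_eq_fun (h.mpre.comp measurable_snd)
        (measurable_fst.comp measurable_fst)).inter
      (measurableSet_eq_fun (h.msuf.comp measurable_snd)
        (measurable_snd.comp measurable_fst))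
    have h2 : ∀ᵐ p ∂((m (j + 1)).map (fun z => ((pre z, suf z), z))),
        pre p.2 = p.1.1 ∧ suf p.2 = p.1.2 := by
      rw [ae_map_iff (hDm.prodMk measurable_id').aemeasurable hms]
      exact Filter.Eventually.of_forall (fun z => ⟨rfl, rfl⟩)
    rw [← h1] at h2
    exact ae_of_ae_map
      (((hYm j i).prodMk (hYm j (i + 1))).prodMk (hYm (j + 1) i)).aemeasurable h2
  have hlaw' : PP.map (Yr Φ o ℓ k (i + 1)) = m k := by
    have h1 : Yr Φ o ℓ k (i + 1) =ᵐ[PP] pre ∘ Yr Φ o ℓ (k + 1) (i + 1) := by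
      filter_upwards [has k (i + 1) le_rfl] with ω hω
      exact hω.1.symm
    rw [Measure.map_congr h1, ← Measure.map_map h.mpre (hYm _ _), hlaw k (i + 1) le_rfl, h.hpre]
  -- the noise at the place `i`
  set v : Om → (ℕ → unitInterval) := fun ω b => ω (i % ℓ, b) with hv
  have hvm : Measurable v := measurable_pi_lambda _ (fun b => measurable_pi_apply _)
  set N : Measure (ℕ → unitInterval) := PP.map v with hN
  have hNp : IsProbabilityMeasure N := Measure.isProbabilityMeasure_map hvm.aemeasurable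
  have hdisj : Disjoint {c : ℕ × ℕ | c.1 ≠ i % ℓ} {c : ℕ × ℕ | c.1 = i % ℓ} := by
    rw [Set.disjoint_left]
    intro c h1 h2
    exact h1 h2
  have hvdep : ∀ ω ω' : Om, (∀ c ∈ {c : ℕ × ℕ | c.1 = i % ℓ}, ω c = ω' c) → v ω = v ω' := by
    intro ω ω' h1
    funext b
    exact h1 (i % ℓ, b) rfl
  have hYdep : ∀ j, j ≤ k + 1 → ∀ ω ω' : Om, (∀ c ∈ {c : ℕ × ℕ | c.1 ≠ i % ℓ}, ω c = ω' c) →
      Yr Φ o ℓ j (i + 1) ω = Yr Φ o ℓ j (i + 1) ω' := by
    intro j hj ω ω' h1
    apply Yr_dep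
    intro t b ht
    apply h1
    have e : i + 1 + t = i + (1 + t) := by ring
    change (i + 1 + t) % ℓ ≠ i % ℓ
    rw [e]
    exact mod_ne (by omega) (by omega)
  have hI1 : PP.map (fun ω => (Yr Φ o ℓ (k + 1) (i + 1) ω, v ω)) = (m (k + 1)).prod N := by
    rw [hind _ _ hdisj X _ (Yr Φ o ℓ (k + 1) (i + 1)) v (hYm _ _) hvm (hYdep _ le_rfl) hvdep,
      hlaw k (i + 1) le_rfl]
  have hI2 : PP.map (fun ω => (Yr Φ o ℓ k (i + 1) ω, v ω)) = (m k).prod N := by
    rw [hind _ _ hdisj X _ (Yr Φ o ℓ k (i + 1)) v (hYm _ _) hvm (hYdep _ (Nat.le_succ k)) hvdep,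
      hlaw']
  set Ψ : X × (ℕ → unitInterval) → X := fun p => Psi Φ o pre (k + 1) p.1 p.2 with hΨ
  have hΨm : Measurable Ψ := Psi_mea hD.meas o h.mpre (k + 1)
  have hΨae : ∀ᵐ ω ∂PP, Yr Φ o ℓ (k + 1) i ω = Ψ (Yr Φ o ℓ k (i + 1) ω, v ω) :=
    hpsi X m pre suf o Φ h hD ℓ k (by omega) htri i
  have hpm : Measurable (fun ω => (Yr Φ o ℓ (k + 1) i ω, Yr Φ o ℓ (k + 1) (i + 1) ω)) :=
    (hYm _ _).prodMk (hYm _ _)
  have hfin : IsFiniteMeasure
      (PP.map (fun ω => (Yr Φ o ℓ (k + 1) i ω, Yr Φ o ℓ (k + 1) (i + 1) ω))) := by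
    have := Measure.isProbabilityMeasure_map (μ := PP) hpm.aemeasurable
    infer_instance
  refine Measure.ext_prod ?_
  intro C D hC hDs
  obtain ⟨g, hg, hg1, hg2⟩ := h.mkv k D hDs
  rw [Measure.map_apply hpm (hC.prod hDs), Measure.map_apply hDm (hC.prod hDs)]
  -- the function `H`
  set H : X → ℝ≥0∞ := fun y => N (Prod.mk y ⁻¹' (Ψ ⁻¹' C)) with hH
  have hHm : Measurable H := measurable_measure_prodMk_left (hΨm hC)
  -- left side
  have hleft : PP ((fun ω => (Yr Φ o ℓ (k + 1) i ω, Yr Φ o ℓ (k + 1) (i + 1) ω)) ⁻¹' (C ×ˢ D)) =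
      ∫⁻ y, g y * H y ∂(m k) := by
    set S1 : Set (X × (ℕ → unitInterval)) := {p | Ψ (pre p.1, p.2) ∈ C ∧ p.1 ∈ D} with hS1
    have hS1m : MeasurableSet S1 := by
      have h1 : Measurable (fun p : X × (ℕ → unitInterval) => Ψ (pre p.1, p.2)) :=
        hΨm.comp ((h.mpre.comp measurable_fst).prodMk measurable_snd)
      exact (h1 hC).inter (measurable_fst hDs)
    have e1 : PP ((fun ω => (Yr Φ o ℓ (k + 1) i ω, Yr Φ o ℓ (k + 1) (i + 1) ω)) ⁻¹' (C ×ˢ D)) =
        PP ((fun ω => (Yr Φ o ℓ (k + 1) (i + 1) ω, v ω)) ⁻¹' S1) := by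
      apply measure_congr
      filter_upwards [hΨae, has k (i + 1) le_rfl] with ω h1 h2
      apply propext
      change ((Yr Φ o ℓ (k + 1) i ω, Yr Φ o ℓ (k + 1) (i + 1) ω) ∈ C ×ˢ D) ↔
        (Ψ (pre (Yr Φ o ℓ (k + 1) (i + 1) ω), v ω) ∈ C ∧ Yr Φ o ℓ (k + 1) (i + 1) ω ∈ D)
      rw [h2.1, ← h1, Set.mem_prod]
    rw [e1, ← Measure.map_apply ((hYm _ _).prodMk hvm) hS1m, hI1, Measure.prod_apply hS1m]
    have e2 : (fun y => N (Prod.mk y ⁻¹' S1)) = D.indicator (fun y => H (pre y)) := by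
      funext y
      by_cases hy : y ∈ D
      · rw [Set.indicator_of_mem hy]
        congr 1
        ext w
        exact ⟨fun h1 => h1.1, fun h1 => ⟨h1, hy⟩⟩
      · rw [Set.indicator_of_notMem hy]
        have : Prod.mk y ⁻¹' S1 = ∅ := by
          ext w
          exact ⟨fun h1 => hy h1.2, fun h1 => h1.elim⟩
        rw [this, measure_empty]
    rw [e2, lintegral_indicator hDs]
    have e3 : ((m (k + 1)).restrict D).map pre = (m k).withDensity g := by
      ext C' hC'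
      rw [Measure.map_apply h.mpre hC', Measure.restrict_apply (h.mpre hC'), hg1 C' hC',
        withDensity_apply _ hC']
    rw [← lintegral_map hHm h.mpre, e3, lintegral_withDensity_eq_lintegral_mul _ hg hHm]
    rfl
  -- right side
  have hright : m (k + 2) ((fun z => (pre z, suf z)) ⁻¹' (C ×ˢ D)) = ∫⁻ y, g y * H y ∂(m k) := by
    have e0 : (fun z => (pre z, suf z)) ⁻¹' (C ×ˢ D) = pre ⁻¹' C ∩ suf ⁻¹' D := rfl
    rw [e0, hg2 C hC, ← lintegral_indicator hC]
    have hGm : Measurable (C.indicator (fun z => g (suf z))) :=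
      (hg.comp h.msuf).indicator hC
    rw [← hlaw k i le_rfl, lintegral_map hGm (hYm _ _)]
    have hFm : Measurable ((Ψ ⁻¹' C).indicator (fun p : X × (ℕ → unitInterval) => g p.1)) :=
      (hg.comp measurable_fst).indicator (hΨm hC)
    have e1 : ∫⁻ ω, C.indicator (fun z => g (suf z)) (Yr Φ o ℓ (k + 1) i ω) ∂PP =
        ∫⁻ ω, (Ψ ⁻¹' C).indicator (fun p : X × (ℕ → unitInterval) => g p.1)
          (Yr Φ o ℓ k (i + 1) ω, v ω) ∂PP := by
      apply lintegral_congr_ae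
      filter_upwards [hΨae, has k i le_rfl] with ω h1 h2
      by_cases hc : Yr Φ o ℓ (k + 1) i ω ∈ C
      · have hc' : (Yr Φ o ℓ k (i + 1) ω, v ω) ∈ Ψ ⁻¹' C := by
          change Ψ (Yr Φ o ℓ k (i + 1) ω, v ω) ∈ C
          rw [← h1]; exact hc
        rw [Set.indicator_of_mem hc, Set.indicator_of_mem hc', h2.2]
      · have hc' : (Yr Φ o ℓ k (i + 1) ω, v ω) ∉ Ψ ⁻¹' C := by
          change ¬ Ψ (Yr Φ o ℓ k (i + 1) ω, v ω) ∈ C
          rw [← h1]; exact hc
        rw [Set.indicator_of_notMem hc, Set.indicator_of_notMem hc']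
    rw [e1, ← lintegral_map (f := (Ψ ⁻¹' C).indicator (fun p : X × (ℕ → unitInterval) => g p.1))
      hFm ((hYm _ _).prodMk hvm), hI2, lintegral_prod _ hFm.aemeasurable]
    apply lintegral_congr
    intro y
    have e4 : (fun w => (Ψ ⁻¹' C).indicator (fun p : X × (ℕ → unitInterval) => g p.1) (y, w)) =
        (Prod.mk y ⁻¹' (Ψ ⁻¹' C)).indicator (fun _ => g y) := by
      funext w
      by_cases hw : (y, w) ∈ Ψ ⁻¹' C
      · have hw' : w ∈ Prod.mk y ⁻¹' (Ψ ⁻¹' C) := hw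
        rw [Set.indicator_of_mem hw, Set.indicator_of_mem hw']
      · have hw' : w ∉ Prod.mk y ⁻¹' (Ψ ⁻¹' C) := hw
        rw [Set.indicator_of_notMem hw, Set.indicator_of_notMem hw']
    rw [e4, lintegral_indicator_const (measurable_prodMk_left (hΨm hC))]
  rw [hleft]
  exact hright.symm

end Pool.Agent.Q149.SY
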