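import Pool.Agent.Q199.SY.Stm

/-!
# Project SY, job UCH: the choice of a word
-/

set_option autoImplicit false

open MeasureTheory ProbabilityTheory Set
open scoped ENNReal BoundedContinuousFunction

namespace Pool.Agent.Q149.SY

open Pool.Agent.Q199.SY

variable {ν : (ℕ → ℝ) → ℝ}

theorem map_suf {m : ℕ → Measure K} (h : ∀ k, (m (k + 1)).map sufK = m k) (j : ℕ) :
    ∀ k, (m (k + j)).map (sufK^[k]) = m j
  | 0 => by simp
  | k + 1 => by
      have e : k + 1 + j = k + j + 1 := by ring
      rw [e, Function.iterate_succ, ← Measure.map_map (continuous_sufK.measurable.iterate k)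
        continuous_sufK.measurable, h, map_suf h j k]

open Classical in
/-- indicator of the words with small letters -/
noncomputable def small (n : ℕ) (w : List ℕ) : ℝ := if ∃ x ∈ w, n < x then 0 else 1

theorem small01 (n : ℕ) (w : List ℕ) : 0 ≤ small n w ∧ small n w ≤ 1 := by
  unfold small
  split_ifs <;> norm_num

/-- words with small letters do not count -/
theorem it_small (hν : IsMean ν) (hs : Sm ν) (n : ℕ) : ∀ k, 1 ≤ k → it ν k (small n) = 0
  | 0, h => by omega
  | k + 1, _ => by
      have hb : Bd (small n) := Bd.of01 (small01 n)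
      have h1 : ∀ x, 0 ≤ it ν k (fun w => small n (x :: w)) ∧
          it ν k (fun w => small n (x :: w)) ≤ if x ≤ n then 1 else 0 := by
        intro x
        constructor
        · rw [← it_const hν 0 k]
          exact it_mono hν k (Bd.const 0) (hb.cons x) (fun w _ => (small01 n _).1)
        · split_ifs with hx
          · rw [← it_const hν 1 k]
            exact it_mono hν k (hb.cons x) (Bd.const 1) (fun w _ => (small01 n _).2)
          · have : (fun w => small n (x :: w)) = fun _ => 0 := by
              funext w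
              unfold small
              rw [if_pos]
              exact ⟨x, List.mem_cons_self, by omega⟩
            rw [this, it_const hν 0 k]
      have hi : Bd (fun x : ℕ => if x ≤ n then (1 : ℝ) else 0) :=
        Bd.of01 (fun x => by split_ifs <;> norm_num)
      apply le_antisymm
      · have := hν.mono _ _ (it_bd hν k hb) hi (fun x => (h1 x).2)
        rw [hs n] at this
        exact this
      · have := hν.mono _ _ (Bd.const 0) (it_bd hν k hb) (fun x => (h1 x).1)
        rw [hν.const 0] at this
        exact this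

theorem prod01 : ∀ (l : List ℝ), (∀ x ∈ l, 0 ≤ x ∧ x ≤ 1) → 0 ≤ l.prod ∧ l.prod ≤ 1
  | [], _ => by simp
  | a :: l, h => by
      have h1 := prod01 l (fun x hx => h x (List.mem_cons_of_mem _ hx))
      have h2 := h a List.mem_cons_self
      rw [List.prod_cons]
      exact ⟨mul_nonneg h2.1 h1.1, mul_le_one₀ h2.2 h1.1 h1.2⟩

theorem prodT : ∀ (l : List ℝ), (∀ x ∈ l, x = 0 ∨ x = 1) → l.prod = 0 ∨ (l.prod = 1 ∧ ∀ x ∈ l, x = 1)
  | [], _ => by simp
  | a :: l, h => by
      have h1 := prodT l (fun x hx => h x (List.mem_cons_of_mem _ hx))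
      have h2 := h a List.mem_cons_self
      rw [List.prod_cons]
      rcases h2 with h2 | h2
      · left; rw [h2, zero_mul]
      · rcases h1 with h1 | h1
        · left; rw [h1, mul_zero]
        · right
          refine ⟨by rw [h2, h1.1, mul_one], ?_⟩
          intro x hx
          rcases List.mem_cons.1 hx with rfl | hx
          · exact h2
          · exact h1.2 x hx

/-- Job UCH. -/
theorem t_uch (hzer : S_zer) (hmap : S_map) : S_uch := by
  intro ν hν hs f m hf01 hm k j hk vs B hB hne n
  have hf : ∀ w, 0 ≤ f w ∧ f w ≤ 1 := by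
    intro w
    rcases hf01 w with h | h <;> rw [h] <;> norm_num
  have hp : ∀ k, IsProbabilityMeasure (m k) := hm.prob
  obtain ⟨-, hsuf, -⟩ := hmap ν hν f m hm
  by_contra hno
  push Not at hno
  apply hne
  -- the function `q`
  set q : K → ℝ := fun z => (z .base : ℝ) *
    (vs.map (fun v => ((preK^[j] z) (secs v .base) : ℝ))).prod with hq
  have hqc : Continuous q := by
    refine Continuous.mul (by fun_prop) ?_
    refine continuous_list_prod vs (fun v _ => ?_)
    have h1 := continuous_preK.iterate j
    exact continuous_subtype_val.comp ((continuous_apply (secs v .base)).comp h1)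
  have hq01 : ∀ z, 0 ≤ q z ∧ q z ≤ 1 := by
    intro z
    have h1 := prod01 (vs.map (fun v => ((preK^[j] z) (secs v .base) : ℝ))) (by
      intro x hx
      obtain ⟨v, _, rfl⟩ := List.mem_map.1 hx
      exact ⟨((preK^[j] z) (secs v .base)).2.1, ((preK^[j] z) (secs v .base)).2.2⟩)
    exact ⟨mul_nonneg (z .base).2.1 h1.1, mul_le_one₀ (z .base).2.2 h1.1 h1.2⟩
  set T : List ℕ → ℝ := fun u => (vs.map (fun v => f (v ++ u))).prod with hT
  have hTv : ∀ u, T u = 0 ∨ (T u = 1 ∧ ∀ v ∈ vs, f (v ++ u) = 1) := by
    intro u
    have := prodT (vs.map (fun v => f (v ++ u))) (by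
      intro x hx
      obtain ⟨v, _, rfl⟩ := List.mem_map.1 hx
      exact hf01 _)
    rcases this with h | h
    · exact Or.inl h
    · exact Or.inr ⟨h.1, fun v hv => h.2 _ (List.mem_map.2 ⟨v, hv, rfl⟩)⟩
  have hT01 : ∀ u, 0 ≤ T u ∧ T u ≤ 1 := by
    intro u
    rcases hTv u with h | h
    · rw [h]; norm_num
    · rw [h.1]; norm_num
  -- the identity
  have hid : ∀ ψ : C(K, ℝ), ∫ z, q z * ψ (sufK^[k] z) ∂(m (k + j)) =
      it ν k (fun u => T u * ∫ t, (t (secs u .base) : ℝ) * ψ t ∂(m j)) := by
    intro ψ
    obtain ⟨C, hC⟩ : ∃ C, ∀ z, |ψ z| ≤ C := ⟨‖ψ‖, fun z => ψ.norm_coe_le_norm z⟩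
    have h1 := hm.int (k + j) ⟨fun z => q z * ψ (sufK^[k] z),
      hqc.mul (ψ.continuous.comp (continuous_sufK.iterate k))⟩
    simp only [ContinuousMap.coe_mk] at h1
    rw [h1, it_split]
    apply it_congr
    intro u hu
    have h2 : it ν j (fun v => q (ty ν f (u ++ v)) * ψ (sufK^[k] (ty ν f (u ++ v)))) =
        it ν j (fun v => T u * (f (u ++ v) * ψ (ty ν f v))) := by
      apply it_congr
      intro v hv
      have e1 : sufK^[k] (ty ν f (u ++ v)) = ty ν f v := by
        rw [sufK_iter_ty, ← hu, tail_iter]
      have e2 : preK^[j] (ty ν f (u ++ v)) = ty ν f u := by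
        rw [preK_iter_ty, ← hv, dropLast_iter]
      have e3 : q (ty ν f (u ++ v)) = f (u ++ v) * T u := by
        simp only [hq, hT, e2]
        rw [ty_val hν hf]
        congr 2
        apply List.map_congr_left
        intro v' _
        rw [ty_val hν hf, ev_secs]
        rfl
      rw [e1, e3]; ring
    have hbd : Bd (fun v => f (u ++ v) * ψ (ty ν f v)) :=
      Bd.mul (Bd.of01 (fun v => hf _)) ⟨C, fun v => hC _⟩
    rw [h2, it_smul hν _ j hbd]
    congr 1
    have h3 := hm.int j ⟨fun t => (t (secs u .base) : ℝ) * ψ t, by fun_prop⟩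
    simp only [ContinuousMap.coe_mk] at h3
    rw [h3]
    apply it_congr
    intro v _
    rw [ty_val hν hf, ev_secs]
    rfl
  -- the coordinate of a chosen word vanishes on `B`
  have hvan : ∀ u : List ℕ, u.length = k → (∃ x ∈ u, n < x) → (∀ v ∈ vs, f (v ++ u) = 1) →
      ∀ᵐ t ∂(m j), B.indicator (fun t : K => (t (secs u .base) : ℝ)) t = 0 := by
    intro u h1 h2 h3
    have h4 := hno u h1 h2 h3
    have h5 : ∀ᵐ t ∂(m j), (t (secs u .base) : ℝ) * (1 - (t (secs u .base) : ℝ)) = 0 := by
      refine hzer ν hν f m hm j (fun t => (t (secs u .base) : ℝ) * (1 - (t (secs u .base) : ℝ)))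
        (by fun_prop) (fun t => mul_nonneg (t _).2.1 (by linarith [(t (secs u .base)).2.2])) ?_
      intro w _
      have : (ty ν f w (secs u .base) : ℝ) = f (u ++ w) := by
        rw [ty_val hν hf, ev_secs]; rfl
      simp only [this]
      rcases hf01 (u ++ w) with h | h <;> rw [h] <;> norm_num
    have h6 : ∀ᵐ t ∂(m j), t ∉ B ∩ {t | (t (secs u .base) : ℝ) = 1} := measure_eq_zero_iff_ae_notMem.1 h4
    filter_upwards [h5, h6] with t ht1 ht2
    by_cases htB : t ∈ B
    · rw [Set.indicator_of_mem htB]
      rcases mul_eq_zero.1 ht1 with h | h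
      · exact h
      · exfalso
        apply ht2
        refine ⟨htB, ?_⟩
        change (t (secs u .base) : ℝ) = 1
        linarith
    · rw [Set.indicator_of_notMem htB]
  -- the set
  set Z : Set K := {z | (z .base : ℝ) = 1 ∧ (∀ v ∈ vs, ((preK^[j] z) (secs v .base) : ℝ) = 1) ∧
      sufK^[k] z ∈ B} with hZ
  have hsm : Measurable (sufK^[k]) := continuous_sufK.measurable.iterate k
  have hBi : ∀ i, Integrable (B.indicator (fun _ => (1 : ℝ))) (m i) := fun i =>
    (integrable_const 1).indicator hB
  have hgood : Integrable (fun z => q z * B.indicator (fun _ => (1 : ℝ)) (sufK^[k] z)) (m (k + j)) := by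
    refine Integrable.mono' (integrable_const (1 : ℝ)) ?_ ?_
    · exact (hqc.measurable.mul ((measurable_const.indicator hB).comp hsm)).aestronglyMeasurable
    · refine Filter.Eventually.of_forall (fun z => ?_)
      have := hq01 z
      by_cases h : sufK^[k] z ∈ B
      · rw [Set.indicator_of_mem h, mul_one, Real.norm_eq_abs, abs_of_nonneg this.1]
        exact this.2
      · rw [Set.indicator_of_notMem h, mul_zero, norm_zero]
        exact zero_le_one
  have hmain : ∀ ε : ℝ, 0 < ε → ∫ z, q z * B.indicator (fun _ => (1 : ℝ)) (sufK^[k] z) ∂(m (k + j)) ≤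
      2 * ε := by
    intro ε hε
    obtain ⟨g, hg1, hg2⟩ := (hBi j).exists_boundedContinuous_integral_sub_le hε
    set ψ : C(K, ℝ) := g.toContinuousMap with hψ
    have hψg : ∀ z, ψ z = g z := fun _ => rfl
    obtain ⟨C, hC⟩ : ∃ C, ∀ z, |ψ z| ≤ C := ⟨‖ψ‖, fun z => ψ.norm_coe_le_norm z⟩
    have hC0 : 0 ≤ C := (abs_nonneg _).trans (hC (fun _ => 0))
    have hdi : Integrable (fun t => ‖B.indicator (fun _ => (1 : ℝ)) t - ψ t‖) (m j) :=
      ((hBi j).sub hg2).norm
    -- bound of the mean
    have hint : ∀ u : List ℕ, |∫ t, (t (secs u .base) : ℝ) * ψ t ∂(m j)| ≤ C := by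
      intro u
      have := norm_integral_le_of_norm_le_const (μ := m j) (f := fun t : K => (t (secs u .base) : ℝ) * ψ t)
        (C := C) (Filter.Eventually.of_forall (fun t => by
          rw [norm_mul, Real.norm_eq_abs, Real.norm_eq_abs, abs_of_nonneg (t _).2.1]
          calc (t (secs u .base) : ℝ) * |ψ t| ≤ 1 * C :=
                mul_le_mul (t _).2.2 (hC t) (abs_nonneg _) zero_le_one
            _ = C := one_mul C))
      simpa using this
    have hb1 : it ν k (fun u => T u * ∫ t, (t (secs u .base) : ℝ) * ψ t ∂(m j)) ≤ ε := by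
      have hle : it ν k (fun u => T u * ∫ t, (t (secs u .base) : ℝ) * ψ t ∂(m j)) ≤
          it ν k (fun u => ε + C * small n u) := by
        refine it_mono hν k (Bd.mul (Bd.of01 hT01) ⟨C, hint⟩)
          ((Bd.const ε).add ((Bd.of01 (small01 n)).smul C)) ?_
        intro u hu
        by_cases hsu : ∃ x ∈ u, n < x
        · have e1 : small n u = 0 := by unfold small; rw [if_pos hsu]
          rw [e1, mul_zero, add_zero]
          rcases hTv u with h | h
          · rw [h, zero_mul]; exact hε.le
          · rw [h.1, one_mul]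
            have hv := hvan u hu hsu h.2
            have e2 : ∫ t, (t (secs u .base) : ℝ) * ψ t ∂(m j) =
                ∫ t, ((t (secs u .base) : ℝ) * ψ t -
                  B.indicator (fun t : K => (t (secs u .base) : ℝ)) t) ∂(m j) := by
              apply integral_congr_ae
              filter_upwards [hv] with t ht
              rw [ht, sub_zero]
            rw [e2]
            refine le_trans ?_ hg1
            refine integral_mono_ae ?_ hdi ?_
            · refine Integrable.sub ?_ ?_
              · refine Integrable.mono' (integrable_const C) ?_ ?_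
                · exact (Continuous.aestronglyMeasurable (by fun_prop))
                · refine Filter.Eventually.of_forall (fun t => ?_)
                  rw [norm_mul, Real.norm_eq_abs, Real.norm_eq_abs, abs_of_nonneg (t _).2.1]
                  calc (t (secs u .base) : ℝ) * |ψ t| ≤ 1 * C :=
                        mul_le_mul (t _).2.2 (hC t) (abs_nonneg _) zero_le_one
                    _ = C := one_mul C
              · refine Integrable.indicator ?_ hB
                refine Integrable.mono' (integrable_const (1 : ℝ)) ?_ ?_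
                · exact (Continuous.aestronglyMeasurable (by fun_prop))
                · refine Filter.Eventually.of_forall (fun t => ?_)
                  rw [Real.norm_eq_abs, abs_of_nonneg (t _).2.1]
                  exact (t _).2.2
            · refine Filter.Eventually.of_forall (fun t => ?_)
              have ht0 : 0 ≤ (t (secs u .base) : ℝ) := (t _).2.1
              have ht1 : (t (secs u .base) : ℝ) ≤ 1 := (t _).2.2
              have e3 : (t (secs u .base) : ℝ) * ψ t - B.indicator (fun t : K => (t (secs u .base) : ℝ)) t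
                  = (t (secs u .base) : ℝ) * (ψ t - B.indicator (fun _ => (1 : ℝ)) t) := by
                by_cases hb : t ∈ B
                · rw [Set.indicator_of_mem hb, Set.indicator_of_mem hb]; ring
                · rw [Set.indicator_of_notMem hb, Set.indicator_of_notMem hb]; ring
              change (t (secs u .base) : ℝ) * ψ t - B.indicator (fun t : K => (t (secs u .base) : ℝ)) t ≤
                ‖B.indicator (fun _ => (1 : ℝ)) t - ψ t‖
              rw [e3, norm_sub_rev]
              calc (t (secs u .base) : ℝ) * (ψ t - B.indicator (fun _ => (1 : ℝ)) t)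
                  ≤ (t (secs u .base) : ℝ) * ‖ψ t - B.indicator (fun _ => (1 : ℝ)) t‖ :=
                    mul_le_mul_of_nonneg_left (Real.le_norm_self _) ht0
                _ ≤ 1 * ‖ψ t - B.indicator (fun _ => (1 : ℝ)) t‖ :=
                    mul_le_mul_of_nonneg_right ht1 (norm_nonneg _)
                _ = _ := one_mul _
        · have e1 : small n u = 1 := by unfold small; rw [if_neg hsu]
          rw [e1, mul_one]
          have h1 : T u * ∫ t, (t (secs u .base) : ℝ) * ψ t ∂(m j) ≤ C := by
            refine le_trans (le_abs_self _) ?_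
            rw [abs_mul, abs_of_nonneg (hT01 u).1]
            calc T u * |∫ t, (t (secs u .base) : ℝ) * ψ t ∂(m j)| ≤ 1 * C :=
                  mul_le_mul (hT01 u).2 (hint u) (abs_nonneg _) zero_le_one
              _ = C := one_mul C
          linarith
      refine le_trans hle ?_
      rw [it_add hν k (Bd.const ε) ((Bd.of01 (small01 n)).smul C),
        it_smul hν C k (Bd.of01 (small01 n)), it_small hν hs n k hk, it_const hν ε k]
      simp
    rw [← hid ψ] at hb1
    -- difference
    have hqψ : Integrable (fun z => q z * ψ (sufK^[k] z)) (m (k + j)) := by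
      refine Integrable.mono' (integrable_const C) ?_ ?_
      · exact (hqc.mul (ψ.continuous.comp (continuous_sufK.iterate k))).aestronglyMeasurable
      · refine Filter.Eventually.of_forall (fun z => ?_)
        rw [norm_mul, Real.norm_eq_abs, Real.norm_eq_abs, abs_of_nonneg (hq01 z).1]
        calc q z * |ψ (sufK^[k] z)| ≤ 1 * C :=
              mul_le_mul (hq01 z).2 (hC _) (abs_nonneg _) zero_le_one
          _ = C := one_mul C
    have hmp : (m (k + j)).map (sufK^[k]) = m j := map_suf hsuf j k
    have hdi' : Integrable (fun z => ‖B.indicator (fun _ => (1 : ℝ)) (sufK^[k] z) - ψ (sufK^[k] z)‖)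
        (m (k + j)) := by
      have h1 : Integrable (fun t => ‖B.indicator (fun _ => (1 : ℝ)) t - ψ t‖)
        ((m (k + j)).map (sufK^[k])) := by rw [hmp]; exact hdi
      exact h1.comp_measurable hsm
    have hd : ∫ z, ‖B.indicator (fun _ => (1 : ℝ)) (sufK^[k] z) - ψ (sufK^[k] z)‖ ∂(m (k + j)) ≤ ε := by
      have h1 := integral_map (μ := m (k + j)) (φ := sufK^[k]) hsm.aemeasurable
        (f := fun t => ‖B.indicator (fun _ => (1 : ℝ)) t - ψ t‖) (by rw [hmp]; exact hdi.1)
      rw [hmp] at h1
      rw [← h1]
      exact hg1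
    have hsum : ∫ z, q z * B.indicator (fun _ => (1 : ℝ)) (sufK^[k] z) ∂(m (k + j)) ≤
        ∫ z, (q z * ψ (sufK^[k] z) +
          ‖B.indicator (fun _ => (1 : ℝ)) (sufK^[k] z) - ψ (sufK^[k] z)‖) ∂(m (k + j)) := by
      refine integral_mono hgood (hqψ.add hdi') (fun z => ?_)
      have h0 := hq01 z
      have h1 : q z * (B.indicator (fun _ => (1 : ℝ)) (sufK^[k] z) - ψ (sufK^[k] z)) ≤
          1 * ‖B.indicator (fun _ => (1 : ℝ)) (sufK^[k] z) - ψ (sufK^[k] z)‖ :=
        le_trans (mul_le_mul_of_nonneg_left (Real.le_norm_self _) h0.1)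
          (mul_le_mul_of_nonneg_right h0.2 (norm_nonneg _))
      change q z * B.indicator (fun _ => (1 : ℝ)) (sufK^[k] z) ≤ q z * ψ (sufK^[k] z) +
          ‖B.indicator (fun _ => (1 : ℝ)) (sufK^[k] z) - ψ (sufK^[k] z)‖
      linarith
    rw [integral_add hqψ hdi'] at hsum
    linarith
  have hzero : ∫ z, q z * B.indicator (fun _ => (1 : ℝ)) (sufK^[k] z) ∂(m (k + j)) ≤ 0 := by
    by_contra h
    push Not at h
    have := hmain ((∫ z, q z * B.indicator (fun _ => (1 : ℝ)) (sufK^[k] z) ∂(m (k + j))) / 4)
      (by linarith)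
    linarith
  have hnn : ∀ z, 0 ≤ q z * B.indicator (fun _ => (1 : ℝ)) (sufK^[k] z) := fun z =>
    mul_nonneg (hq01 z).1 (Set.indicator_nonneg (fun _ _ => zero_le_one) _)
  have hae : (fun z => q z * B.indicator (fun _ => (1 : ℝ)) (sufK^[k] z)) =ᵐ[m (k + j)] 0 := by
    rw [← integral_eq_zero_iff_of_nonneg hnn hgood]
    exact le_antisymm hzero (integral_nonneg hnn)
  refine measure_mono_null ?_ (ae_iff.1 hae)
  intro z hz
  obtain ⟨h1, h2, h3⟩ := hz
  change ¬ (q z * B.indicator (fun _ => (1 : ℝ)) (sufK^[k] z) = 0)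
  rw [Set.indicator_of_mem h3, mul_one]
  have : (vs.map (fun v => ((preK^[j] z) (secs v .base) : ℝ))).prod = 1 := by
    apply List.prod_eq_one
    intro x hx
    obtain ⟨v, hv, rfl⟩ := List.mem_map.1 hx
    exact h2 v hv
  simp only [hq]
  rw [this, h1]
  norm_num

end Pool.Agent.Q149.SY
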